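import Pool.Agent.H3.HD.Iter
import Pool.Agent.H33.HD.RF

/-!
# MP_e37c09_lc: small club sets of an ordinal of uncountable cofinality, diagonal intersections
-/

set_option autoImplicit false

open Ordinal Cardinal Order Set
open scoped ZFSet

universe u

namespace Pool.Agent.H65.HD

open _root_.HD
open Pool.Agent.H33.HD.RF (lim_of_cof)
open Pool.Agent.H3.HD (exists_bound exists_iter)

/-- `univ` is a club set -/
theorem clb_univ {α : Ordinal.{u}} (hα : IsSuccLimit α) : Clb α univ :=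
  ⟨fun a ha => ⟨succ a, hα.succ_lt ha, lt_succ a, mem_univ _⟩, fun _ _ _ _ => mem_univ _⟩

/-- the limit points of a club set -/
def lp (C : Set Ordinal.{u}) : Set Ordinal.{u} := {g | 0 < g ∧ ∀ y < g, ∃ z < g, y < z ∧ z ∈ C}

/-- a club set is club at its limit points -/
theorem clb_down {α g : Ordinal.{u}} {C : Set Ordinal.{u}} (hC : Clb α C) (hg : g < α)
    (h : g ∈ lp C) : Clb g C :=
  ⟨h.2, fun x hx h0 h1 => hC.cls x (hx.trans hg) h0 h1⟩

theorem lp_sub {α g : Ordinal.{u}} {C : Set Ordinal.{u}} (hC : Clb α C) (hg : g < α)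
    (h : g ∈ lp C) : g ∈ C := hC.cls g hg h.1 h.2

theorem clb_inter {α : Ordinal.{u}} (hα : ℵ₀ < α.cof) {C C' : Set Ordinal.{u}} (hC : Clb α C)
    (hC' : Clb α C') : Clb α (C ∩ C') := by
  refine ⟨fun a ha => ?_, fun x hx h0 h => ⟨hC.cls x hx h0 fun y hy => ?_,
    hC'.cls x hx h0 fun y hy => ?_⟩⟩
  · obtain ⟨x, hx, s, hs0, hsx, hsP, hsy⟩ := exists_iter hα
      (fun b b' => (∃ z ∈ C, b < z ∧ z < b') ∧ ∃ z ∈ C', b < z ∧ z < b') (fun b hb => by
        obtain ⟨z, hz, hbz, hzC⟩ := hC.unb b hb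
        obtain ⟨z', hz', hbz', hzC'⟩ := hC'.unb b hb
        refine ⟨succ (max z z'), (lim_of_cof hα).succ_lt (max_lt hz hz'),
          hbz.trans (lt_of_le_of_lt (le_max_left _ _) (lt_succ _)),
          ⟨z, hzC, hbz, lt_of_le_of_lt (le_max_left _ _) (lt_succ _)⟩,
          ⟨z', hzC', hbz', lt_of_le_of_lt (le_max_right _ _) (lt_succ _)⟩⟩) a ha
    have h0x : 0 < x := lt_of_le_of_lt bot_le (hsx 0)
    refine ⟨x, hx, hs0 ▸ hsx 0, hC.cls x hx h0x fun y hy => ?_, hC'.cls x hx h0x fun y hy => ?_⟩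
    · obtain ⟨n, hn⟩ := hsy y hy
      obtain ⟨z, hz, h1, h2⟩ := (hsP n).1
      exact ⟨z, h2.trans (hsx _), hn.trans h1, hz⟩
    · obtain ⟨n, hn⟩ := hsy y hy
      obtain ⟨z, hz, h1, h2⟩ := (hsP n).2
      exact ⟨z, h2.trans (hsx _), hn.trans h1, hz⟩
  · obtain ⟨z, hz, hyz, hzC⟩ := h y hy
    exact ⟨z, hz, hyz, hzC.1⟩
  · obtain ⟨z, hz, hyz, hzC⟩ := h y hy
    exact ⟨z, hz, hyz, hzC.2⟩

theorem clb_lp {α : Ordinal.{u}} (hα : ℵ₀ < α.cof) {C : Set Ordinal.{u}} (hC : Clb α C) :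
    Clb α (lp C) := by
  refine ⟨fun a ha => ?_, fun x hx h0 h => ⟨h0, fun y hy => ?_⟩⟩
  · obtain ⟨x, hx, s, hs0, hsx, hsP, hsy⟩ := exists_iter hα
      (fun b b' => b' ∈ C) (fun b hb => by
        obtain ⟨z, hz, hbz, hzC⟩ := hC.unb b hb
        exact ⟨z, hz, hbz, hzC⟩) a ha
    refine ⟨x, hx, hs0 ▸ hsx 0, lt_of_le_of_lt bot_le (hsx 0), fun y hy => ?_⟩
    obtain ⟨n, hn⟩ := hsy (max y (s 0)) (max_lt hy (hsx 0))
    have hn0 : n ≠ 0 := by
      rintro rfl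
      exact absurd hn (not_lt.2 (le_max_right _ _))
    obtain ⟨m, rfl⟩ := Nat.exists_eq_succ_of_ne_zero hn0
    exact ⟨s (m + 1), hsx _, lt_of_le_of_lt (le_max_left _ _) hn, hsP m⟩
  · obtain ⟨z, hz, hyz, hzC⟩ := h y hy
    obtain ⟨w, hw, hyw, hwC⟩ := hzC.2 y hyz
    exact ⟨w, hw.trans hz, hyw, hwC⟩

/-- a club set of order type at most the cofinality, with an increasing enumeration -/
theorem sclub {α : Ordinal.{u}} (hα : IsSuccLimit α) : ∃ (B : Set Ordinal.{u})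
    (s : Ordinal.{u} → Ordinal.{u}), Clb α B ∧ (∀ b ∈ B, b < α) ∧
      (∀ b ∈ B, ∃ a < α.cof.ord, s a = b) ∧
      ∀ x < α, ∃ i < α.cof.ord, ∀ a < α.cof.ord, s a < x → a < i := by
  obtain ⟨f, hf⟩ := exists_isFundamentalSeq (o := α) rfl
  have hν : IsSuccLimit α.cof.ord := by
    apply Cardinal.isSuccLimit_ord
    exact Ordinal.aleph0_le_cof_iff.2 (Ordinal.one_lt_cof_iff.2 hα)
  let S : Ordinal.{u} → Set Ordinal.{u} := fun a => {x | ∃ i, i.1 < a ∧ x = (f i).1}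
  let s : Ordinal.{u} → Ordinal.{u} := fun a => sSup (S a)
  have hbdd : ∀ a, BddAbove (S a) := by
    intro a
    refine ⟨α, ?_⟩
    rintro x ⟨i, -, rfl⟩
    exact (f i).2.le
  have hle : ∀ a i, i.1 < a → (f i).1 ≤ s a := fun a i hi => le_csSup (hbdd a) ⟨i, hi, rfl⟩
  have hsle : ∀ a y, (∀ i, i.1 < a → (f i).1 ≤ y) → s a ≤ y := by
    intro a y h
    rcases (S a).eq_empty_or_nonempty with he | hne
    · show sSup (S a) ≤ y
      rw [he, csSup_empty]
      exact bot_le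
    · refine csSup_le hne ?_
      rintro x ⟨i, hi, rfl⟩
      exact h i hi
  refine ⟨{x | x < α ∧ ∃ a < α.cof.ord, s a = x}, s, ⟨?_, ?_⟩, fun b hb => hb.1,
    fun x hx => hx.2, ?_⟩
  · intro a ha
    obtain ⟨_, ⟨i, rfl⟩, hi⟩ := hf.isCofinal_range ⟨succ a, hα.succ_lt ha⟩
    have hi' : succ a ≤ (f i).1 := hi
    have hs : s (succ i.1) = (f i).1 := by
      apply le_antisymm
      · refine hsle _ _ fun j hj => ?_
        have : j.1 ≤ i.1 := Order.lt_succ_iff.1 hj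
        exact hf.strictMono.monotone this
      · exact hle _ _ (Order.lt_succ _)
    exact ⟨(f i).1, (f i).2, Order.succ_le_iff.1 hi', (f i).2, succ i.1,
      hν.succ_lt i.2, hs⟩
  · intro x hx _ h
    refine ⟨hx, ?_⟩
    have hex : ∃ a : Ordinal.{u}, ∃ i : Iio α.cof.ord, i.1 = a ∧ x ≤ (f i).1 := by
      obtain ⟨_, ⟨i, rfl⟩, hi⟩ := hf.isCofinal_range ⟨x, hx⟩
      exact ⟨i.1, i, rfl, hi⟩
    obtain ⟨a, ⟨i, hia, hi⟩, hmin⟩ := WellFounded.has_min (wellFounded_lt (α := Ordinal.{u}))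
      {a | ∃ i : Iio α.cof.ord, i.1 = a ∧ x ≤ (f i).1} hex
    have hlow : ∀ k : Iio α.cof.ord, k.1 < a → (f k).1 < x := by
      intro k hk
      by_contra hc
      exact hmin k.1 ⟨k, rfl, not_lt.1 hc⟩ hk
    refine ⟨a, hia ▸ i.2, le_antisymm (hsle _ _ fun k hk => (hlow k hk).le) ?_⟩
    by_contra hc
    push Not at hc
    obtain ⟨z, hzx, hz, _, c, hc', hcz⟩ := h _ hc
    rcases le_or_gt c a with h1 | h1
    · have : s c ≤ s a := hsle _ _ fun k hk => hle _ _ (hk.trans_le h1)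
      rw [hcz] at this
      exact absurd hz (not_lt.2 this)
    · have : (f i).1 ≤ s c := hle _ _ (hia ▸ h1)
      rw [hcz] at this
      exact absurd hzx (not_lt.2 (hi.trans this))
  · intro x hx
    obtain ⟨_, ⟨i, rfl⟩, hi⟩ := hf.isCofinal_range ⟨x, hx⟩
    refine ⟨succ i.1, hν.succ_lt i.2, fun a _ hax => ?_⟩
    by_contra hc
    push Not at hc
    have h1 : (f i).1 ≤ s a := hle _ _ (lt_of_lt_of_le (lt_succ _) hc)
    have hi' : x ≤ (f i).1 := hi
    exact absurd hax (not_lt.2 (hi'.trans h1))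

/-- diagonal intersection along a small club set -/
theorem diagB {α : Ordinal.{u}} (hα : ℵ₀ < α.cof) {B : Set Ordinal.{u}}
    {s : Ordinal.{u} → Ordinal.{u}}
    (hs : ∀ b ∈ B, ∃ a < α.cof.ord, s a = b)
    (hs2 : ∀ x < α, ∃ i < α.cof.ord, ∀ a < α.cof.ord, s a < x → a < i)
    (D : Ordinal.{u} → Set Ordinal.{u}) (hD : ∀ b ∈ B, Clb α (D b)) :
    Clb α {g | ∀ b ∈ B, b < g → g ∈ D b} := by
  classical
  have hlim := lim_of_cof hα
  refine ⟨fun a ha => ?_, fun x hx h0 h b hbB hbx => ?_⟩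
  · obtain ⟨x, hx, t, ht0, htx, htP, hty⟩ := exists_iter hα
      (fun w v => ∀ b ∈ B, b < w → ∃ z ∈ D b, w < z ∧ z < v) (fun w hw => by
        obtain ⟨i, hi, hi2⟩ := hs2 w hw
        have h1 : ∀ b, ∃ z, b ∈ B → z < α ∧ w < z ∧ z ∈ D b := by
          intro b
          by_cases hb : b ∈ B
          · obtain ⟨z, hz1, hz2, hz3⟩ := (hD b hb).unb w hw
            exact ⟨z, fun _ => ⟨hz1, hz2, hz3⟩⟩
          · exact ⟨0, fun h => absurd h hb⟩
        choose f hf using h1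
        have hic : i.card < α.cof := Cardinal.lt_ord.1 hi
        obtain ⟨c, hc, hc2⟩ := exists_bound hic (fun a => if s a ∈ B then f (s a) else 0) (by
          intro j _
          by_cases hj : s j ∈ B
          · simp only [hj, if_true]
            exact (hf _ hj).1
          · simp only [hj, if_false]
            exact lt_of_le_of_lt bot_le hw)
        refine ⟨max (succ c) (succ w), max_lt (hlim.succ_lt hc) (hlim.succ_lt hw),
          lt_of_lt_of_le (lt_succ w) (le_max_right _ _), fun b hb hbw => ?_⟩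
        obtain ⟨j, hj, rfl⟩ := hs b hb
        have := hc2 j (hi2 j hj hbw)
        simp only [hb, if_true] at this
        exact ⟨f (s j), (hf _ hb).2.2, (hf _ hb).2.1,
          lt_of_le_of_lt this (lt_of_lt_of_le (lt_succ c) (le_max_left _ _))⟩) a ha
    refine ⟨x, hx, ht0 ▸ htx 0, fun b hb hbx => ?_⟩
    refine (hD b hb).cls x hx (lt_of_le_of_lt bot_le (htx 0)) fun y hy => ?_
    obtain ⟨n, hn⟩ := hty (max y b) (max_lt hy hbx)
    obtain ⟨z, hz, h1, h2⟩ := htP n b hb (lt_of_le_of_lt (le_max_right _ _) hn)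
    exact ⟨z, h2.trans (htx _), (lt_of_le_of_lt (le_max_left _ _) hn).trans h1, hz⟩
  · refine (hD b hbB).cls x hx h0 fun y hy => ?_
    obtain ⟨z, hz, hyz, hzC⟩ := h (max y b) (max_lt hy hbx)
    exact ⟨z, hz, lt_of_le_of_lt (le_max_left _ _) hyz,
      hzC b hbB (lt_of_le_of_lt (le_max_right _ _) hyz)⟩

/-- the complement of a null set contains a club set -/
theorem null_clb {μ ρ : Ordinal.{u}} {X : Set Ordinal.{u}} (h : ¬ Pos μ ρ X) :
    ∃ C, Clb ρ C ∧ ∀ b < ρ, b ∈ C → b ∈ X → ¬ Cf μ b := by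
  by_contra hc
  refine h fun C hC => ?_
  by_contra hc'
  exact hc ⟨C, hC, fun b hb hbC hbX hbμ => hc' ⟨b, hb, hbC, hbX, hbμ⟩⟩

/-- diagonal union of null sets along a small club set -/
theorem null_diag {α ν : Ordinal.{u}} (hα : ℵ₀ < α.cof) {B : Set Ordinal.{u}}
    {s : Ordinal.{u} → Ordinal.{u}}
    (hs : ∀ b ∈ B, ∃ a < α.cof.ord, s a = b)
    (hs2 : ∀ x < α, ∃ i < α.cof.ord, ∀ a < α.cof.ord, s a < x → a < i)
    (W : Ordinal.{u} → Set Ordinal.{u}) (hW : ∀ b ∈ B, ¬ Pos ν α (W b)) :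
    ¬ Pos ν α {g | ∃ b ∈ B, b < g ∧ g ∈ W b} := by
  have h1 : ∀ b, ∃ C, b ∈ B → Clb α C ∧ ∀ g < α, g ∈ C → g ∈ W b → ¬ Cf ν g := by
    intro b
    by_cases hb : b ∈ B
    · obtain ⟨C, hC⟩ := null_clb (hW b hb)
      exact ⟨C, fun _ => hC⟩
    · exact ⟨univ, fun h => absurd h hb⟩
  choose D hD using h1
  intro hpos
  obtain ⟨g, hg, hgD, ⟨b, hb, hbg, hgW⟩, hcf⟩ := hpos _ (diagB hα hs hs2 D fun b hb => (hD b hb).1)
  exact (hD b hb).2 g hg (hgD b hb hbg) hgW hcf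

end Pool.Agent.H65.HD
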