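import Pool.Agent.H7.HD.Targets2
import Pool.Agent.H74.HD.XH

/-!
# MP_e37c09_lc, module YH: first step of the covering argument
-/

open Ordinal Cardinal Order Set
open scoped ZFSet

universe u

namespace Pool.Agent.H65.HD.YH

open _root_.HD Pool.Agent.H74.HD.XH

theorem yh (hYF : T_YF.{u}) (hLB : T_LB.{u}) (hDA : T_DA.{u}) : T_YH.{u} := by
  intro δ η θ j M κ γ f hS α hα hδα hαγ
  by_contra hcon
  push Not at hcon
  have he := hS.emb
  have hα0 : 0 < α := lt_of_le_of_lt bot_le hδα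
  have hδη : δ < η := he.dlt
  have hαη : α < η := lt_of_le_of_lt hαγ hS.γη
  set ν := α.cof.ord with hν
  have hνη : ν < η := hcon.trans hδη
  have hMη : M.ord < η := hS.mlt.trans hδη
  obtain ⟨G, hG1, hG2⟩ := cofinal_fun hα0
  -- the set of pairs
  set g : ZFSet.{u} := rs ν α fun a b => b = G a with hg
  have hgsub : g ⊆ ZFSet.prod ν.toZFSet α.toZFSet := by
    intro p hp
    obtain ⟨a, ha, b, hb, -, rfl⟩ := mem_rs.1 hp
    rw [ZFSet.pair_mem_prod, toZFSet_mem_toZFSet_iff, toZFSet_mem_toZFSet_iff]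
    exact ⟨ha, hb⟩
  have hgη : g ∈ V_ η := mem_V_of_sub hgsub (he.gd.prod (Gd.ord.2 hνη) (Gd.ord.2 hαη))
  have hgfun : ZFSet.IsFunc ν.toZFSet α.toZFSet g := by
    refine ⟨hgsub, fun z hz => ?_⟩
    obtain ⟨a, ha, rfl⟩ := mem_toZFSet_iff.1 hz
    refine ⟨(G a).toZFSet, pair_mem_rs.2 ⟨ha, hG1 a ha, rfl⟩, fun y hy => ?_⟩
    obtain ⟨a', -, b, -, hb, h⟩ := mem_rs.1 hy
    obtain ⟨h1, h2⟩ := ZFSet.pair_injective h
    rw [h2, hb, toZFSet_injective h1]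
  have hjg : ∀ (a : Ordinal.{u}) (x : ZFSet.{u}), ZFSet.pair a.toZFSet x ∈ j g →
      x = (Jo j (G a)).toZFSet ∧ a < ν := by
    intro a x hx
    have h1 := (he.trl (loc_func 0 1 2) [ν.toZFSet, α.toZFSet, g] (by
      simp only [List.mem_cons, List.not_mem_nil, or_false, forall_eq_or_imp, forall_eq]
      exact ⟨Gd.ord.2 hνη, Gd.ord.2 hαη, hgη⟩)).1 (by simpa using hgfun)
    have h2 : ZFSet.IsFunc (j ν.toZFSet) (j α.toZFSet) (j g) := by simpa using h1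
    have h3 : j ν.toZFSet = ν.toZFSet := he.fix ν hcon
    rw [h3] at h2
    have h4 := (ZFSet.pair_mem_prod.1 (h2.1 hx)).1
    rw [toZFSet_mem_toZFSet_iff] at h4
    refine ⟨?_, h4⟩
    obtain ⟨w, hw, hu⟩ := h2.2 a.toZFSet (toZFSet_mem_toZFSet_iff.2 h4)
    have h5 : ZFSet.pair a.toZFSet (Jo j (G a)).toZFSet ∈ j g := by
      have h6 := (he.opair (h4.trans hνη) ((hG1 a h4).trans hαη) hgη).1
        (pair_mem_rs.2 ⟨h4, hG1 a h4, rfl⟩)
      rwa [he.Jo_fix (h4.trans hcon)] at h6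
    rw [hu x hx, hu _ h5]
  -- the supremum
  have hKl : IsSuccLimit κ := by
    rw [← Ordinal.one_lt_cof_iff]
    refine lt_of_lt_of_le Cardinal.one_lt_aleph0 ?_
    rw [← Cardinal.ord_le_ord, Cardinal.ord_aleph0]
    exact (hS.dom.le).trans hS.kcof
  set r : Ordinal.{u} := ⨆ t : κ.ToType, succ (Jo j (Ordinal.ToType.mk.symm t).1) with hr
  have hr1 : ∀ x < κ, Jo j x < r := by
    intro x hx
    have h1 := Ordinal.le_iSup (fun t : κ.ToType =>
      succ (Jo j (Ordinal.ToType.mk.symm t).1)) (Ordinal.ToType.mk ⟨x, hx⟩)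
    refine lt_of_lt_of_le (lt_succ _) (le_trans (le_of_eq ?_) h1)
    rw [OrderIso.symm_apply_apply]
  have hr2 : ∀ y < r, ∃ x < κ, y < Jo j x := by
    intro y hy
    obtain ⟨t, ht⟩ := (Ordinal.lt_iSup_iff).1 hy
    have hx := (Ordinal.ToType.mk.symm t).2
    refine ⟨succ (Ordinal.ToType.mk.symm t).1, hKl.succ_lt hx, ?_⟩
    rw [he.Jo_succ (lt_trans hx hS.kη)]
    exact ht
  have hrθ : r < θ := by
    refine lt_of_le_of_lt ?_ (he.Jo_lt hS.kη)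
    refine Ordinal.iSup_le fun t => ?_
    have hx := (Ordinal.ToType.mk.symm t).2
    exact succ_le_of_lt ((he.lt_iff (lt_trans hx hS.kη) hS.kη).2 hx)
  have hsol := hYF δ η θ j M κ γ f hS r hr1 hr2
  -- the parameters
  have hPη : ZFSet.prod δ.toZFSet γ.toZFSet ∈ V_ η :=
    he.gd.prod (Gd.ord.2 hδη) (Gd.ord.2 hS.γη)
  have htr := (he.trl_ex (loc_RR hLB) [M.ord.toZFSet, δ.toZFSet, γ.toZFSet, f, g,
    ZFSet.prod δ.toZFSet γ.toZFSet] (by
      simp only [List.mem_cons, List.not_mem_nil, or_false, forall_eq_or_imp, forall_eq]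
      exact ⟨Gd.ord.2 hMη, Gd.ord.2 hδη, Gd.ord.2 hS.γη, hS.fη, hgη, hPη⟩)).2 ?_
  · obtain ⟨ρ, -, ⟨t, ht, h, -, h1, h2⟩, h3⟩ := htr
    simp only [sv_cons_zero, sv_cons_succ] at ht h1 h2 h3
    obtain ⟨τ, hτ, rfl⟩ := mem_toZFSet_iff.1 ht
    -- the set
    set X : Set Ordinal.{u} := {i | ρ.IsOrdinal ∧ Pos M.ord ρ.rank (fib f i)} with hX
    have hXds : DS X := (DO.cst ρ.IsOrdinal).and (ds_pos hDA hS.od M.ord ρ.rank)
    have hPP : ∀ i : Ordinal.{u}, PP M.ord.toZFSet ρ f i.toZFSet ↔ i ∈ X := by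
      intro i
      unfold PP
      rw [rank_toZFSet]
      exact ⟨fun h => ⟨h.2.1, h.2.2⟩, fun h => ⟨ZFSet.isOrdinal_toZFSet _, h.1, h.2⟩⟩
    refine hα X hXds ?_ ?_
    · intro b hb
      obtain ⟨a, ha, hba⟩ := hG2 b hb
      refine ⟨G a, hG1 a ha, hba, ?_⟩
      rw [← hPP]
      exact h3 _ (toZFSet_mem_toZFSet_iff.2 (lt_trans ha hcon)) _
        (toZFSet_mem_toZFSet_iff.2 (lt_of_lt_of_le (hG1 a ha) hαγ))
        (pair_mem_rs.2 ⟨ha, hG1 a ha, rfl⟩)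
    · classical
      refine ⟨τ, lt_of_lt_of_le hτ ?_, fun a => if hh : ∃ i < γ,
        ZFSet.pair a.toZFSet i.toZFSet ∈ h then Classical.choose hh else 0, ?_⟩
      · have h4 : δ.card.ord = δ := by
          rw [← hS.dreg, Cardinal.card_ord]
        rw [← h4]
        exact Cardinal.ord_le_ord.2 (Ordinal.card_le_card hδα.le)
      · rintro i ⟨hiX, hiα⟩
        have hiγ : i < γ := lt_of_lt_of_le hiα hαγ
        obtain ⟨x, hx, hxi⟩ := h1 _ (toZFSet_mem_toZFSet_iff.2 hiγ) ((hPP i).2 hiX)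
        obtain ⟨a, ha, rfl⟩ := mem_toZFSet_iff.1 hx
        refine ⟨a, ha, ?_⟩
        have hh : ∃ i < γ, ZFSet.pair a.toZFSet i.toZFSet ∈ h := ⟨i, hiγ, hxi⟩
        dsimp only
        rw [dif_pos hh]
        obtain ⟨h5, h6⟩ := Classical.choose_spec hh
        exact toZFSet_injective (h2 _ hx _ (toZFSet_mem_toZFSet_iff.2 h5) _
          (toZFSet_mem_toZFSet_iff.2 hiγ) h6 hxi)
  · have hjM : j M.ord.toZFSet = M.ord.toZFSet := he.fix _ hS.mlt
    have hjP : j (ZFSet.prod δ.toZFSet γ.toZFSet) =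
        ZFSet.prod (Jo j δ).toZFSet (Jo j γ).toZFSet := by
      rw [he.prod (Gd.ord.2 hδη) (Gd.ord.2 hS.γη), he.ord hδη, he.ord hS.γη]
    have hγδ : γ < Jo j δ := hS.γη.trans he.Jo_crit
    have hPP : ∀ i : Ordinal.{u}, PP M.ord.toZFSet r.toZFSet (j f) i.toZFSet ↔
        Pos M.ord r (fib (j f) i) := by
      intro i
      unfold PP
      rw [rank_toZFSet, rank_toZFSet]
      exact ⟨fun h => h.2.2, fun h => ⟨ZFSet.isOrdinal_toZFSet _, ZFSet.isOrdinal_toZFSet _, h⟩⟩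
    refine ⟨r.toZFSet, Gd.ord.2 hrθ, ?_⟩
    show RR r.toZFSet (sv [j M.ord.toZFSet, j δ.toZFSet, j γ.toZFSet, j f, j g,
      j (ZFSet.prod δ.toZFSet γ.toZFSet)])
    rw [hjM, hjP, he.ord hδη, he.ord hS.γη]
    refine ⟨⟨γ.toZFSet, toZFSet_mem_toZFSet_iff.2 hγδ, rs γ (Jo j γ) fun a b => b = Jo j a,
      ?_, ?_, ?_⟩, ?_⟩
    · intro p hp
      obtain ⟨a, ha, b, hb, -, rfl⟩ := mem_rs.1 hp
      simp only [sv_cons_zero, sv_cons_succ]
      rw [ZFSet.pair_mem_prod, toZFSet_mem_toZFSet_iff, toZFSet_mem_toZFSet_iff]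
      exact ⟨ha.trans hγδ, hb⟩
    · intro x hx hp
      simp only [sv_cons_zero, sv_cons_succ] at hx hp
      obtain ⟨i, hi, rfl⟩ := mem_toZFSet_iff.1 hx
      obtain ⟨i0, hi0, rfl⟩ := (hsol i hi).1 ((hPP i).1 hp)
      exact ⟨i0.toZFSet, toZFSet_mem_toZFSet_iff.2 hi0, pair_mem_rs.2 ⟨hi0, hi, rfl⟩⟩
    · intro x hx y hy z hz h1 h2
      obtain ⟨a, -, b, -, h3, h4⟩ := mem_rs.1 h1
      obtain ⟨a', -, b', -, h5, h6⟩ := mem_rs.1 h2
      obtain ⟨h7, h8⟩ := ZFSet.pair_injective h4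
      obtain ⟨h9, h10⟩ := ZFSet.pair_injective h6
      have : a = a' := toZFSet_injective (h7.symm.trans h9)
      rw [h8, h10, h3, h5, this]
    · intro x hx y hy h1
      simp only [sv_cons_zero, sv_cons_succ] at hx hy h1 ⊢
      obtain ⟨a, ha, rfl⟩ := mem_toZFSet_iff.1 hx
      obtain ⟨i, hi, rfl⟩ := mem_toZFSet_iff.1 hy
      obtain ⟨h2, h3⟩ := hjg a _ h1
      rw [hPP, hsol i hi]
      exact ⟨G a, lt_of_lt_of_le (hG1 a h3) hαγ, toZFSet_injective h2⟩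

end Pool.Agent.H65.HD.YH
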