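import Pool.Agent.H7.HD.Targets6

/-!
# Module CB: closure points of a function of two variables
-/

open Ordinal Cardinal Order Set
open scoped ZFSet

universe u

namespace Pool.Agent.H65.HD.CB

open _root_.HD

theorem cb : T_CB.{u} := by
  intro K hK hK0 G hG
  have hcof : K.ord.cof = K := hK.cof_ord
  have hρ : ℵ₀ < K.ord.cof := by rw [hcof]; exact hK0
  have hlim : IsSuccLimit K.ord := (Ordinal.one_lt_cof_iff).1 (Cardinal.one_lt_aleph0.trans hρ)
  have hex : ∀ x < K.ord, ∃ s < K.ord, ∀ y ≤ x, ∀ y' ≤ x, G y y' < s := by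
    intro x hx
    have hx1 : x + 1 < K.ord := hlim.add_one_lt hx
    have hb' : (x + 1).card < K.ord.cof := by
      rw [hcof]
      exact Cardinal.lt_ord.1 hx1
    have h1 : ∀ y, ∃ s, y < x + 1 → s < K.ord ∧ ∀ y' < x + 1, G y y' ≤ s := by
      intro y
      by_cases hy : y < x + 1
      · obtain ⟨s, hs, hs2⟩ := Pool.Agent.H3.HD.exists_bound hb' (G y)
          (fun i hi => hG y (hy.trans hx1) i (hi.trans hx1))
        exact ⟨s, fun _ => ⟨hs, hs2⟩⟩
      · exact ⟨0, fun h => absurd h hy⟩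
    choose s hs using h1
    obtain ⟨t, ht, ht2⟩ := Pool.Agent.H3.HD.exists_bound hb' s (fun i hi => (hs i hi).1)
    refine ⟨t + 1, hlim.add_one_lt ht, fun y hy y' hy' => ?_⟩
    have hy1 : y < x + 1 := lt_of_le_of_lt hy (_root_.lt_add_one x)
    have hy1' : y' < x + 1 := lt_of_le_of_lt hy' (_root_.lt_add_one x)
    exact lt_of_le_of_lt (((hs y hy1).2 y' hy1').trans (ht2 y hy1)) (_root_.lt_add_one t)
  have hex' : ∀ x, ∃ s, x < K.ord → s < K.ord ∧ ∀ y ≤ x, ∀ y' ≤ x, G y y' < s := by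
    intro x
    by_cases hx : x < K.ord
    · obtain ⟨s, h1, h2⟩ := hex x hx
      exact ⟨s, fun _ => ⟨h1, h2⟩⟩
    · exact ⟨0, fun h => absurd h hx⟩
  choose h hh using hex'
  have hC := HD.All.ve K hK hK0 h (fun x hx => (hh x hx).1)
  constructor
  · intro a ha
    obtain ⟨b, hb, hab, hb0, hbh⟩ := hC.unb a ha
    refine ⟨b, hb, hab, hb0, fun x hx y hy => ?_⟩
    have hm : max x y < b := max_lt hx hy
    exact ((hh _ (hm.trans hb)).2 x (le_max_left _ _) y (le_max_right _ _)).trans (hbh _ hm)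
  · intro x hx hx0 hl
    refine ⟨hx0, fun y hy y' hy' => ?_⟩
    obtain ⟨z, hz, hmz, -, hzG⟩ := hl (max y y') (max_lt hy hy')
    exact (hzG y ((le_max_left _ _).trans_lt hmz) y' ((le_max_right _ _).trans_lt hmz)).trans hz

end Pool.Agent.H65.HD.CB
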