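import Pool.Agent.H7.HD.Targets6

/-!
# Module NF: a normal function cofinal in `lam`
-/

open Ordinal Cardinal Order Set
open scoped ZFSet

universe u

namespace Pool.Agent.H65.HD.NF

open _root_.HD

theorem nf : T_NF.{u} := by
  intro K lam hK hK0 hcof
  have hρ : ℵ₀ < lam.cof := by rw [hcof]; exact hK0
  have hlim : IsSuccLimit lam := (Ordinal.one_lt_cof_iff).1 (Cardinal.one_lt_aleph0.trans hρ)
  have hKlim : IsSuccLimit K.ord := by
    refine (Ordinal.one_lt_cof_iff).1 ?_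
    rw [hK.cof_ord]
    exact Cardinal.one_lt_aleph0.trans hK0
  obtain ⟨g, hg1, hg2, hg3⟩ := Pool.Agent.H2.HD.UV.exists_seq hlim
  rw [hcof] at hg1 hg2 hg3
  obtain ⟨n, hn⟩ : ∃ n : Ordinal.{u} → Ordinal.{u}, n = fun x => ⨆ i : Iio x, (g i.1 + 1) :=
    ⟨_, rfl⟩
  have hle : ∀ x i, i < x → g i + 1 ≤ n x := by
    intro x i hi
    rw [hn]
    exact Ordinal.le_iSup (fun j : Iio x => g j.1 + 1) ⟨i, hi⟩
  have hlt : ∀ x < K.ord, n x < lam := by
    intro x hx
    rw [hn]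
    refine Pool.Agent.H33.HD.VC.sup_lt (f := fun i : Iio x => g i.1) ?_
      (fun i => hg1 i.1 (lt_trans i.2 hx))
    rw [hcof]
    exact Cardinal.lt_ord.1 hx
  have hup : ∀ x < K.ord, n x ≤ g x := by
    intro x hx
    rw [hn]
    refine Ordinal.iSup_le fun i => ?_
    rw [← Order.succ_eq_add_one, Order.succ_le_iff]
    exact hg2 i.1 (lt_trans i.2 hx) x hx i.2
  refine ⟨n, ?_, hlt, ?_, ?_⟩
  · intro x y hxy hy
    have h1 := hup x (hxy.trans hy)
    exact lt_of_lt_of_le (lt_of_le_of_lt h1 (_root_.lt_add_one (g x))) (hle y x hxy)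
  · intro y hy
    obtain ⟨i, hi, hyi⟩ := hg3 y hy
    refine ⟨i + 1, hKlim.add_one_lt hi, ?_⟩
    exact (hyi.trans (_root_.lt_add_one (g i))).trans_le (hle (i + 1) i (_root_.lt_add_one i))
  · intro x hx hxl y hy
    have h1 : ∃ i : Iio x, y < g i.1 + 1 := by
      rw [hn] at hy
      exact Ordinal.lt_iSup_iff.1 hy
    obtain ⟨i, hi⟩ := h1
    have hi2 : i.1 + 1 < x := hxl.add_one_lt i.2
    exact ⟨i.1 + 1, hi2, hi.trans_le (hle _ _ (_root_.lt_add_one i.1))⟩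

end Pool.Agent.H65.HD.NF
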