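import Pool.Agent.H7.HD.Targets5

/-!
# MP_e37c09_lc, module BD: small sets of HOD are bounded in an ordinal which is regular in HOD
-/

open Ordinal Cardinal Order Set
open scoped ZFSet

universe u

namespace Pool.Agent.H65.HD.BD

open _root_.HD

theorem X : T_BD.{u} := by
  intro κ lam x hκ hx
  by_contra hcon
  push Not at hcon
  obtain ⟨-, τ, hτ, f, hf, hfx, hon⟩ := ZFSet.mem_sep.1 hx
  have hκ0 : 0 < κ := lt_of_le_of_lt (zero_le (a := τ)) hτ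
  let R : Ordinal.{u} → Ordinal.{u} → Prop := fun t a =>
    (ZFSet.pair t.toZFSet a.toZFSet ∈ f ∧ a < κ) ∨
      (a = 0 ∧ ¬ ∃ a' < κ, ZFSet.pair t.toZFSet a'.toZFSet ∈ f)
  have hR : DR R := by
    refine DO.or (DO.and hf.od.dr (DO.ltc 1 κ)) (DO.and (DO.eqc 1 0) (DO.not ?_))
    refine DO.exLtc (R := fun a' w => ZFSet.pair (w 0).toZFSet a'.toZFSet ∈ f) κ ?_
    exact DO.s2 (X := fun a b => ZFSet.pair a.toZFSet b.toZFSet ∈ f) hf.od.dr 1 0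
  refine hκ.2 ⟨τ, hτ, rs τ κ R, hod_rs hR _ _, ⟨fun p hp => ?_, fun z hz => ?_⟩, fun b hb => ?_⟩
  · obtain ⟨a, ha, b, hb, -, rfl⟩ := mem_rs.1 hp
    rw [ZFSet.pair_mem_prod, toZFSet_mem_toZFSet_iff, toZFSet_mem_toZFSet_iff]
    exact ⟨ha, hb⟩
  · obtain ⟨t, ht, rfl⟩ := mem_toZFSet_iff.1 hz
    obtain ⟨w, hw, hu⟩ := hfx.2 t.toZFSet (toZFSet_mem_toZFSet_iff.2 ht)
    by_cases h : ∃ a' < κ, ZFSet.pair t.toZFSet a'.toZFSet ∈ f
    · obtain ⟨a, ha, hta⟩ := id h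
      refine ⟨a.toZFSet, pair_mem_rs.2 ⟨ht, ha, Or.inl ⟨hta, ha⟩⟩, fun y hy => ?_⟩
      obtain ⟨t', -, b, -, hb, he⟩ := mem_rs.1 hy
      obtain ⟨h1, h2⟩ := ZFSet.pair_injective he
      rcases hb with hb | hb
      · rw [h2]
        rw [← toZFSet_injective h1] at hb
        rw [hu _ hb.1, hu _ hta]
      · rw [← toZFSet_injective h1] at hb
        exact absurd h hb.2
    · refine ⟨(0 : Ordinal.{u}).toZFSet, pair_mem_rs.2 ⟨ht, hκ0, Or.inr ⟨rfl, h⟩⟩,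
        fun y hy => ?_⟩
      obtain ⟨t', -, b, -, hb, he⟩ := mem_rs.1 hy
      obtain ⟨h1, h2⟩ := ZFSet.pair_injective he
      rcases hb with hb | hb
      · rw [← toZFSet_injective h1] at hb
        exact absurd ⟨b, hb.2, hb.1⟩ h
      · rw [h2, hb.1]
  · obtain ⟨a, ha, hax, hba⟩ := hcon b hb
    obtain ⟨t, ht, hta⟩ := hon _ hax
    exact ⟨t, ht, a, hba, pair_mem_rs.2 ⟨ht, ha, Or.inl ⟨hta, ha⟩⟩⟩

end Pool.Agent.H65.HD.BD
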