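import Pool.Agent.H65.HD.SC

/-!
# MP_e37c09_lc, module HI2: almost all `g` are not split by `c`, at an arbitrary ordinal
-/

set_option autoImplicit false

open Ordinal Cardinal Order Set
open scoped ZFSet

universe u

namespace Pool.Agent.H65.HD

open _root_.HD
open Pool.Agent.H33.HD.RF (lim_of_cof)

/-- `x` splits `c` at `g` -/
def Spl (en : Ordinal.{u} → ZFSet.{u}) (μ c g x : Ordinal.{u}) : Prop :=
  Pos μ g (E en c ∩ E en x) ∧ Pos μ g (E en c \ E en x)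

theorem memE {en : Ordinal.{u} → ZFSet.{u}}
    (h : DO.{u} fun w => w 0 ∈ E en (w 1)) (c : Ordinal.{u}) (i : ℕ) :
    DO.{u} fun w => w i ∈ E en c :=
  DO.sub (R := fun x w => w i ∈ E en x) c
    (DO.s2 (X := fun a b => a ∈ E en b) h (i + 1) 0)

theorem dr_Spl {en : Ordinal.{u} → ZFSet.{u}} (hE1 : DO.{u} fun w => w 0 ∈ E en (w 1))
    (hDA : T_DA.{u}) (μ c : Ordinal.{u}) : DR (Spl en μ c) := by
  have hE : ∀ i j : ℕ, DO.{u} fun w => w i ∈ E en (w j) := fun i j =>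
    DO.s2 (X := fun a b => a ∈ E en b) hE1 i j
  refine DO.and ?_ ?_
  · refine DO.sub (R := fun x w => Pos x (w 0) {a | a ∈ E en c ∧ a ∈ E en (w 1)}) μ ?_
    exact hDA 0 1 (fun a w => a ∈ E en c ∧ a ∈ E en (w 2)) ((memE hE1 c 0).and (hE 0 3))
  · refine DO.sub (R := fun x w => Pos x (w 0) {a | a ∈ E en c ∧ ¬ a ∈ E en (w 1)}) μ ?_
    exact hDA 0 1 (fun a w => a ∈ E en c ∧ ¬ a ∈ E en (w 2)) ((memE hE1 c 0).and (hE 0 3).not)

/-- For all `g` in the atom `d` except a null set, no ordinal definable set splits the atom `c` at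
`g`. -/
theorem hi2 (hEA : T_EA.{u}) (hDA : T_DA.{u}) {en : Ordinal.{u} → ZFSet.{u}} (hen : EN en)
    {μ ν α c d : Ordinal.{u}} (hα : ℵ₀ < α.cof) (hc : Atom en μ α c) (hd : Atom en ν α d) :
    ¬ Pos ν α {g | g ∈ E en d ∧
      ∃ x, Pos μ g (E en c ∩ E en x) ∧ Pos μ g (E en c \ E en x)} := by
  intro hpos
  obtain ⟨hE1, -, hE3, -⟩ := hEA en hen
  have hR : DR (Spl en μ c) := dr_Spl hE1 hDA μ c
  have hlim := lim_of_cof hα
  -- the least code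
  let Q : Ordinal.{u} → Ordinal.{u} → Prop := fun g b =>
    ∃ e, Spl en μ c g e ∧ (∀ e1 < e, ¬ Spl en μ c g e1) ∧ b ∈ E en e
  have hQ : DR Q := by
    refine DO.ex (R := fun e w => Spl en μ c (w 0) e ∧ (∀ e1 < e, ¬ Spl en μ c (w 0) e1) ∧
      w 1 ∈ E en e) ?_
    refine (DO.s2 (X := Spl en μ c) hR 1 0).and (DO.and ?_ ?_)
    · exact DO.allLt (R := fun e1 w => ¬ Spl en μ c (w 1) e1) 0
        (DO.s2 (X := Spl en μ c) hR 2 0).not
    · exact DO.s2 (X := fun b e => b ∈ E en e) hE1 2 0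
  let P : Ordinal.{u} → Prop := fun g => g ∈ E en d ∧ ∃ x, Spl en μ c g x
  have hP : DO.{u} fun w => P (w 0) :=
    (memE hE1 d 0).and (DO.ex (R := fun x w => Spl en μ c (w 0) x)
      (DO.s2 (X := Spl en μ c) hR 1 0))
  let F : Set Ordinal.{u} := {b | ¬ Pos ν α {g | P g ∧ ¬ Q g b}}
  have hF : DS F := by
    refine DO.not ?_
    refine DO.sub (R := fun x w => Pos x α {g | P g ∧ ¬ Q g (w 0)}) ν ?_
    refine DO.sub (R := fun x w => Pos (w 0) x {g | P g ∧ ¬ Q g (w 1)}) α ?_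
    exact hDA 1 0 (fun g w => P g ∧ ¬ Q g (w 2))
      ((DO.s1 (X := P) hP 0).and (DO.s2 (X := Q) hQ 0 3).not)
  -- one of the two sets is null
  have hF2 : ∀ b, b ∉ F → ¬ Pos ν α {g | P g ∧ Q g b} := by
    intro b hb h1
    have h2 : Pos ν α {g | P g ∧ ¬ Q g b} := not_not.1 hb
    have hX : DS {g | P g ∧ ¬ Q g b} := by
      refine DO.sub (R := fun x w => P (w 0) ∧ ¬ Q (w 0) x) b ?_
      exact (DO.s1 (X := P) hP 1).and (DO.s2 (X := Q) hQ 1 0).not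
    obtain ⟨x, hx⟩ := hE3 _ hX α
    refine hd.ult x ⟨h2.mono fun g hg hgP _ => ⟨hgP.1.1, ?_⟩,
      h1.mono fun g hg hgP _ => ⟨hgP.1.1, fun hgx => ?_⟩⟩
    · rw [hx]
      exact ⟨hgP, hg⟩
    · rw [hx] at hgx
      exact hgx.1.2 hgP.2
  obtain ⟨x, hx⟩ := hE3 F hF α
  obtain ⟨B, s, hB, hB1, hs, hs2⟩ := sclub hlim
  -- the final argument
  have key : ∀ (C : Set Ordinal.{u}), Clb α C → ∀ W : Ordinal.{u} → Ordinal.{u} → Prop,
      (∀ b < α, b ∈ C → b ∈ E en c → Cf μ b → ¬ Pos ν α {g | P g ∧ W g b}) →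
      (∀ g, P g → (∀ C', Clb g C' → ∃ b < g, b ∈ C' ∧ b ∈ E en c ∧ Cf μ b ∧ W g b)) →
      False := by
    intro C hC W h1 h2
    have h3 := null_diag (ν := ν) hα hs hs2
      (fun b => {g | b ∈ C ∧ b ∈ E en c ∧ Cf μ b ∧ P g ∧ W g b}) (fun b hb hn => by
        by_cases hb' : b ∈ C ∧ b ∈ E en c ∧ Cf μ b
        · exact h1 b (hB1 b hb) hb'.1 hb'.2.1 hb'.2.2 (hn.mono fun g _ hg _ => hg.2.2.2)
        · obtain ⟨g, _, _, hg, _⟩ := hn _ (clb_univ hlim)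
          exact hb' ⟨hg.1, hg.2.1, hg.2.2.1⟩)
    obtain ⟨G, hG, hG2⟩ := null_clb h3
    have hBC : Clb α (B ∩ C) := clb_inter hα hB hC
    obtain ⟨g, hg, hgm, hgP, hcf⟩ := hpos _ (clb_inter hα hG (clb_lp hα hBC))
    obtain ⟨b, hbg, hbBC, hbc, hbμ, hW⟩ := h2 g hgP _ (clb_down hBC hg hgm.2)
    exact hG2 g hg hgm.1 ⟨b, hbBC.1, hbg, hbBC.2, hbc, hbμ, hgP, hW⟩ hcf
  -- the least code of a splitting set
  have hleast : ∀ g, P g → ∃ a, Spl en μ c g a ∧ ∀ b, (Q g b ↔ b ∈ E en a) := by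
    rintro g ⟨-, x0, hx0⟩
    have hne : {e | Spl en μ c g e}.Nonempty := ⟨x0, hx0⟩
    have hmem : Spl en μ c g (sInf {e | Spl en μ c g e}) := csInf_mem hne
    have hlt : ∀ e1 < sInf {e | Spl en μ c g e}, ¬ Spl en μ c g e1 := fun e1 h1 h2 =>
      absurd (csInf_le' (show e1 ∈ {e | Spl en μ c g e} from h2)) (not_le.2 h1)
    refine ⟨_, hmem, fun b => ⟨?_, fun h => ⟨_, hmem, hlt, h⟩⟩⟩
    rintro ⟨e, g1, g2, g3⟩
    have : e = sInf {e | Spl en μ c g e} := by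
      refine le_antisymm ?_ (csInf_le' (show e ∈ {e | Spl en μ c g e} from g1))
      by_contra hlt'
      push Not at hlt'
      exact g2 _ hlt' hmem
    rwa [← this]
  by_cases hcx : Pos μ α (E en c ∩ E en x)
  · -- almost all elements of `c` are in `F`
    have hcx' : ¬ Pos μ α (E en c \ E en x) := fun h => hc.ult x ⟨hcx, h⟩
    obtain ⟨C, hC, hC2⟩ := null_clb hcx'
    refine key C hC (fun g b => ¬ Q g b) (fun b hb hbC hbc hbμ => ?_) (fun g hgP C' hC' => ?_)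
    · by_contra hn
      refine hC2 b hb hbC ⟨hbc, fun hbx => ?_⟩ hbμ
      rw [hx] at hbx
      exact hbx.1 hn
    · obtain ⟨a, ha, ha2⟩ := hleast g hgP
      obtain ⟨b, hbg, hbC, hbm, hbμ⟩ := ha.2 C' hC'
      exact ⟨b, hbg, hbC, hbm.1, hbμ, fun h => hbm.2 ((ha2 b).1 h)⟩
  · obtain ⟨C, hC, hC2⟩ := null_clb hcx
    refine key C hC Q (fun b hb hbC hbc hbμ => ?_) (fun g hgP C' hC' => ?_)
    · refine hF2 b fun hbF => hC2 b hb hbC ⟨hbc, ?_⟩ hbμ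
      rw [hx]
      exact ⟨hbF, hb⟩
    · obtain ⟨a, ha, ha2⟩ := hleast g hgP
      obtain ⟨b, hbg, hbC, hbm, hbμ⟩ := ha.1 C' hC'
      exact ⟨b, hbg, hbC, hbm.1, hbμ, (ha2 b).2 hbm.2⟩

end Pool.Agent.H65.HD
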