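import Pool.Agent.H82.HD.TR

/-! MAINp: the induction on scales with the condition of back projection. -/

set_option autoImplicit false

namespace Pool.Agent.H65.HD

open Pool.Agent.H83.G Pool.Agent.H22.G4 Pool.Agent.H82.HD MeasureTheory Set Filter Topology

private theorem bd_mono {m L : ℕ} {β : E m → ℂ} {x κ R T g g' : ℝ} (hR : 0 ≤ R)
    (h : Bdp m L β x κ R T g) (hg : g ≤ g') : Bdp m L β x κ R T g' := by
  intro A H G X hA hH hG hB hX hz
  refine (h A H G X hA hH hG hB hX hz).trans ?_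
  have h1 : 0 ≤ ∫ ζ, ‖G ζ‖ ^ 2 := integral_nonneg fun ζ => by positivity
  have h2 : 0 ≤ A ^ x := Real.rpow_nonneg hA.le _
  have h3 : 0 ≤ R ^ (m * x / 2 - 1) := Real.rpow_nonneg hR _
  gcongr

private theorem bd_of {m L : ℕ} {x κ R g : ℝ} (β : E m → ℂ) (T : ℝ) (h : Bdx m L x κ R g) :
    Bdp m L β x κ R T g := fun A H G X hA hH hG _ hX hz =>
  h A H G X hA hH hG hX fun z hz' => (hz z hz').2.2

private theorem tneg (c : ℝ) (hc : 0 < c) : Tendsto (fun R : ℝ => R ^ (-c)) atTop (𝓝 0) :=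
  tendsto_rpow_neg_atTop hc

private theorem thr (C₂ δ ε₀ ε : ℝ) (hδ : 0 < δ) (hε₀ : 0 < ε₀) (hε₀' : ε₀ ≤ 1 / 4)
    (hε : 0 < ε) : ∃ R₂ : ℝ, 1 ≤ R₂ ∧ ∀ R, R₂ ≤ R → C₂ ≤ R ∧
      C₂ * R ^ (-δ) + R ^ (-(δ / 2)) ≤ (R ^ (1 - ε₀)) ^ (-(δ / 2)) ∧
      (R ^ (1 - ε₀)) ^ (-(δ / 2)) ≤ 1 / 16 ∧ C₂ * R ^ (-(ε₀ * ε / 2)) ≤ 1 / 3 ∧
      R ^ (1 - ε₀) ≤ R / 2 := by
  have h2 : ∀ᶠ R : ℝ in atTop, C₂ ≤ R := eventually_ge_atTop _
  have h0 : ∀ᶠ R : ℝ in atTop, (1 : ℝ) ≤ R := eventually_ge_atTop _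
  have h3 : ∀ᶠ R : ℝ in atTop, C₂ * R ^ (-(δ / 2)) ≤ 1 := by
    have := (tneg (δ / 2) (by positivity)).const_mul C₂
    rw [mul_zero] at this
    exact (this.eventually (gt_mem_nhds zero_lt_one)).mono fun R h => h.le
  have h4 : ∀ᶠ R : ℝ in atTop, (2 : ℝ) ≤ R ^ (ε₀ * (δ / 2)) :=
    (tendsto_rpow_atTop (by positivity)).eventually_ge_atTop 2
  have h5 : ∀ᶠ R : ℝ in atTop, R ^ (-((1 - ε₀) * (δ / 2))) ≤ 1 / 16 := by
    have hpos : 0 < (1 - ε₀) * (δ / 2) := by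
      have : 0 < 1 - ε₀ := by linarith
      positivity
    exact ((tneg _ hpos).eventually (gt_mem_nhds (by norm_num : (0 : ℝ) < 1 / 16))).mono
      fun R h => h.le
  have h6 : ∀ᶠ R : ℝ in atTop, C₂ * R ^ (-(ε₀ * ε / 2)) ≤ 1 / 3 := by
    have := (tneg (ε₀ * ε / 2) (by positivity)).const_mul C₂
    rw [mul_zero] at this
    exact (this.eventually (gt_mem_nhds (by norm_num : (0 : ℝ) < 1 / 3))).mono fun R h => h.le
  have h7 : ∀ᶠ R : ℝ in atTop, (2 : ℝ) ≤ R ^ ε₀ :=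
    (tendsto_rpow_atTop hε₀).eventually_ge_atTop 2
  obtain ⟨R₂, hR₂⟩ := eventually_atTop.1 (h0.and (h2.and (h3.and (h4.and (h5.and
    (h6.and h7))))))
  refine ⟨max 1 R₂, le_max_left _ _, fun R hR => ?_⟩
  obtain ⟨g0, g2, g3, g4, g5, g6, g7⟩ := hR₂ R ((le_max_right _ _).trans hR)
  have hRp : 0 < R := by linarith
  have e1 : (R ^ (1 - ε₀)) ^ (-(δ / 2)) = R ^ (-((1 - ε₀) * (δ / 2))) := by
    rw [← Real.rpow_mul hRp.le]
    congr 1
    ring
  refine ⟨g2, ?_, ?_, g6, ?_⟩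
  · rw [e1]
    have e2 : R ^ (-((1 - ε₀) * (δ / 2))) = R ^ (-(δ / 2)) * R ^ (ε₀ * (δ / 2)) := by
      rw [← Real.rpow_add hRp]
      congr 1
      ring
    have e3 : R ^ (-δ) = R ^ (-(δ / 2)) * R ^ (-(δ / 2)) := by
      rw [← Real.rpow_add hRp]
      congr 1
      ring
    rw [e2, e3]
    have h8 : 0 < R ^ (-(δ / 2)) := Real.rpow_pos_of_pos hRp _
    calc C₂ * (R ^ (-(δ / 2)) * R ^ (-(δ / 2))) + R ^ (-(δ / 2))
        = R ^ (-(δ / 2)) * (C₂ * R ^ (-(δ / 2)) + 1) := by ring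
      _ ≤ R ^ (-(δ / 2)) * R ^ (ε₀ * (δ / 2)) := by
          apply mul_le_mul_of_nonneg_left _ h8.le
          linarith
  · rw [e1]
    exact g5
  · have e2 : R ^ (1 - ε₀) * R ^ ε₀ = R := by
      rw [← Real.rpow_add hRp, sub_add_cancel, Real.rpow_one]
    have h8 : 0 < R ^ (1 - ε₀) := Real.rpow_pos_of_pos hRp _
    nlinarith

theorem pf_MAINp (hRECp : T_RECp) (hBAS : Pool.Agent.H22.G4.T_BASx) : T_MAINp := by
  intro m L x γ β ε' hm hx0 hx4 hmx hγ hTEN hL hβ hε'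
  obtain ⟨ε, hε, hε1, hεε⟩ : ∃ ε : ℝ, 0 < ε ∧ ε ≤ 1 ∧ ε ≤ ε' :=
    ⟨min ε' 1, lt_min hε' one_pos, min_le_right _ _, min_le_left _ _⟩
  suffices h : ∃ C : ℝ, 0 < C ∧ ∀ R : ℝ, 1 ≤ R → Bdp m L β x (1 / 4) R R (C * R ^ ε) by
    obtain ⟨C, hC, h⟩ := h
    refine ⟨C, hC, fun R hR => bd_mono (by linarith) (h R hR) ?_⟩
    have := Real.rpow_le_rpow_of_exponent_le hR hεε
    gcongr
  -- parameters
  have hm0 : (0 : ℝ) ≤ (m : ℝ) := by positivity
  have hlb : (m : ℝ) + 2 ≤ lb m := by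
    unfold lb
    nlinarith
  have hlb0 : 0 < lb m := by linarith
  obtain ⟨ε₀, h01, h02, h0γ, h03⟩ : ∃ ε₀ : ℝ, 0 < ε₀ ∧ ε₀ ≤ 1 / 4 ∧ ε₀ ≤ γ ∧
      lb m * ε₀ ≤ ε / 64 := by
    refine ⟨min (min (1 / 4) γ) (ε / (64 * lb m)), lt_min (lt_min (by norm_num) hγ)
      (by positivity), (min_le_left _ _).trans (min_le_left _ _),
      (min_le_left _ _).trans (min_le_right _ _), ?_⟩
    calc lb m * min (min (1 / 4) γ) (ε / (64 * lb m)) ≤ lb m * (ε / (64 * lb m)) := by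
          apply mul_le_mul_of_nonneg_left (min_le_right _ _) hlb0.le
      _ = ε / 64 := by
          field_simp
  have h04 : ((m : ℝ) + 2) * ε₀ ≤ ε / 64 :=
    (mul_le_mul_of_nonneg_right hlb h01.le).trans h03
  obtain ⟨δ, h11, h12, h1γ, h14, h13⟩ : ∃ δ : ℝ, 0 < δ ∧ δ ≤ 1 / 100 ∧ δ ≤ γ ∧ δ ≤ ε₀ / 4 ∧
      lb m * δ ≤ ε₀ * ε / 64 := by
    refine ⟨min (min (1 / 100) γ) (min (ε₀ / 4) (ε₀ * ε / (64 * lb m))),
      lt_min (lt_min (by norm_num) hγ) (lt_min (by positivity) (by positivity)),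
      (min_le_left _ _).trans (min_le_left _ _), (min_le_left _ _).trans (min_le_right _ _),
      (min_le_right _ _).trans (min_le_left _ _), ?_⟩
    calc lb m * min (min (1 / 100) γ) (min (ε₀ / 4) (ε₀ * ε / (64 * lb m)))
        ≤ lb m * (ε₀ * ε / (64 * lb m)) := by
          apply mul_le_mul_of_nonneg_left ((min_le_right _ _).trans (min_le_right _ _)) hlb0.le
      _ = ε₀ * ε / 64 := by
          field_simp
  have h05 : ε₀ * ε ≤ 1 / 4 * ε := mul_le_mul_of_nonneg_right h02 hε.le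
  have h06 : 0 < ε₀ * ε := mul_pos h01 hε
  obtain ⟨C₂, hC₂, hR⟩ := hRECp m L x γ β δ ε₀ (ε₀ * ε / 32) ε₀ hm hx0 hx4 hmx hL hβ h11 h12
    (by linarith) h02 (by positivity)
  obtain ⟨R₂, hR₂, hthr⟩ := thr C₂ δ ε₀ (ε / 2) h11 h01 h02 (by positivity)
  obtain ⟨C₀, hC₀, hB, -⟩ := hBAS m L x hm hx0 hx4
  -- the constant
  let C : ℝ := max 1 (C₀ * R₂)
  have hC1 : 1 ≤ C := le_max_left _ _
  have hC2 : C₀ * R₂ ≤ C := le_max_right _ _
  have hC0 : 0 < C := by linarith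
  have key : ∀ (n : ℕ) (R κ T : ℝ), 1 ≤ R → R < 2 ^ n → R ^ (1 + ε₀) ≤ T → 0 ≤ κ → κ ≤ 3 / 8 →
      (R₂ ≤ R → κ ≤ 5 / 16 + R ^ (-(δ / 2))) → Bdp m L β x κ R T (C * R ^ (ε / 2)) := by
    intro n
    induction n with
    | zero =>
      intro R κ T h1 h2
      rw [pow_zero] at h2
      exact absurd h1 (not_le.2 h2)
    | succ n ih =>
      intro R κ T h1 h2 hRT hκ0 hκ hκ2
      have hRp : 0 < R := by linarith
      rcases lt_or_ge R R₂ with hlt | hge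
      · refine bd_mono hRp.le (bd_of β T (hB κ R hκ0 (by linarith) h1)) ?_
        have h3 : 1 ≤ R ^ (ε / 2) := Real.one_le_rpow h1 (by linarith)
        have h4 : C₀ * R ≤ C₀ * R₂ := by gcongr
        nlinarith
      · obtain ⟨t2, t3, t4, t5, t6⟩ := hthr R hge
        have hκR := hκ2 hge
        have hpow : (2 : ℝ) ^ (n + 1) = 2 * 2 ^ n := by rw [pow_succ]; ring
        have hR''1 : 1 ≤ R ^ (1 - ε₀) := Real.one_le_rpow h1 (by linarith)
        have hC₂p : 0 ≤ C₂ * R ^ (-δ) := by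
          have := Real.rpow_nonneg hRp.le (-δ)
          have : 0 ≤ C₂ := by linarith
          positivity
        have hRR : R ^ (1 - ε₀) ≤ R := by linarith
        have hRT' : (R ^ (1 - ε₀)) ^ (1 + ε₀) ≤ T :=
          (Real.rpow_le_rpow (by linarith) hRR (by linarith)).trans hRT
        have hRT0 : R ≤ T := by
          refine le_trans ?_ hRT
          calc R = R ^ (1 : ℝ) := (Real.rpow_one R).symm
            _ ≤ R ^ (1 + ε₀) := Real.rpow_le_rpow_of_exponent_le h1 (by linarith)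
        have b2 := ih (R ^ (1 - ε₀)) (κ + C₂ * R ^ (-δ)) T hR''1 (by linarith) hRT' (by linarith)
          (by linarith) (fun _ => by linarith)
        have hg1 : 1 ≤ C * (R ^ (1 - ε₀)) ^ (ε / 2) := by
          have : 1 ≤ (R ^ (1 - ε₀)) ^ (ε / 2) := Real.one_le_rpow hR''1 (by linarith)
          exact one_le_mul_of_one_le_of_one_le hC1 this
        have b3 := (hR κ R T (C * (R ^ (1 - ε₀)) ^ (ε / 2)) hκ0 hκ t2 hRT0 hg1 b2).2 hTEN h1γ
          h0γ (by linarith) hRT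
        refine bd_mono hRp.le b3 ?_
        have hRε : 0 < R ^ (ε / 2) := Real.rpow_pos_of_pos hRp _
        -- first term
        have c2 : C₂ * R ^ (ε₀ * ε / 32 + 2 * lb m * δ) * (C * (R ^ (1 - ε₀)) ^ (ε / 2)) ≤
            C * R ^ (ε / 2) / 3 := by
          have h4 : R ^ (ε₀ * ε / 32 + 2 * lb m * δ) * (R ^ (1 - ε₀)) ^ (ε / 2) ≤
              R ^ (-(ε₀ * (ε / 2) / 2)) * R ^ (ε / 2) := by
            rw [← Real.rpow_mul hRp.le, ← Real.rpow_add hRp, ← Real.rpow_add hRp]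
            apply Real.rpow_le_rpow_of_exponent_le h1
            have h7 : (1 - ε₀) * (ε / 2) = ε / 2 - ε₀ * ε / 2 := by ring
            have h8 : 2 * lb m * δ = 2 * (lb m * δ) := by ring
            rw [h7, h8]
            linarith
          calc C₂ * R ^ (ε₀ * ε / 32 + 2 * lb m * δ) * (C * (R ^ (1 - ε₀)) ^ (ε / 2))
              = C₂ * C * (R ^ (ε₀ * ε / 32 + 2 * lb m * δ) * (R ^ (1 - ε₀)) ^ (ε / 2)) := by
                ring
            _ ≤ C₂ * C * (R ^ (-(ε₀ * (ε / 2) / 2)) * R ^ (ε / 2)) := by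
                apply mul_le_mul_of_nonneg_left h4
                have : 0 ≤ C₂ := by linarith
                positivity
            _ = (C₂ * R ^ (-(ε₀ * (ε / 2) / 2))) * (C * R ^ (ε / 2)) := by ring
            _ ≤ 1 / 3 * (C * R ^ (ε / 2)) := by
                apply mul_le_mul_of_nonneg_right t5 (by positivity)
            _ = C * R ^ (ε / 2) / 3 := by ring
        -- second term
        have c3 : C₂ * R ^ (2 * lb m * (δ + ε₀)) ≤ C * R ^ (ε / 2) / 3 := by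
          have h3 : R ^ (2 * lb m * (δ + ε₀)) ≤ R ^ (-(ε₀ * (ε / 2) / 2)) * R ^ (ε / 2) := by
            rw [← Real.rpow_add hRp]
            apply Real.rpow_le_rpow_of_exponent_le h1
            have h7 : 2 * lb m * (δ + ε₀) = 2 * (lb m * δ) + 2 * (lb m * ε₀) := by ring
            rw [h7]
            linarith
          calc C₂ * R ^ (2 * lb m * (δ + ε₀))
              ≤ C₂ * (R ^ (-(ε₀ * (ε / 2) / 2)) * R ^ (ε / 2)) := by
                apply mul_le_mul_of_nonneg_left h3 (by linarith)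
            _ = (C₂ * R ^ (-(ε₀ * (ε / 2) / 2))) * (1 * R ^ (ε / 2)) := by ring
            _ ≤ 1 / 3 * (C * R ^ (ε / 2)) := by
                apply mul_le_mul t5 (by gcongr) (by positivity) (by norm_num)
            _ = C * R ^ (ε / 2) / 3 := by ring
        have hpos : 0 ≤ C * R ^ (ε / 2) := by positivity
        linarith
  -- the top step
  refine ⟨max (C₂ * C) (C₀ * R₂), lt_max_of_lt_left (by
    have : 0 < C₂ := by linarith
    positivity), fun R hR1 => ?_⟩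
  have hRp : 0 < R := by linarith
  have hRε : 0 < R ^ ε := Real.rpow_pos_of_pos hRp _
  rcases lt_or_ge R R₂ with hlt | hge
  · refine bd_mono hRp.le (bd_of β R (hB (1 / 4) R (by norm_num) (by norm_num) hR1)) ?_
    have h3 : 1 ≤ R ^ ε := Real.one_le_rpow hR1 hε.le
    have h4 : C₀ * R ≤ C₀ * R₂ := by gcongr
    have h5 : C₀ * R₂ ≤ max (C₂ * C) (C₀ * R₂) := le_max_right _ _
    have h6 : 0 ≤ max (C₂ * C) (C₀ * R₂) := le_trans (by positivity) h5
    nlinarith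
  · obtain ⟨t2, t3, t4, t5, t6⟩ := hthr R hge
    have hR''1 : 1 ≤ R ^ (1 - ε₀) := Real.one_le_rpow hR1 (by linarith)
    have hC₂p : 0 ≤ C₂ * R ^ (-δ) := by
      have := Real.rpow_nonneg hRp.le (-δ)
      have : 0 ≤ C₂ := by linarith
      positivity
    have hδ2 : 0 ≤ R ^ (-(δ / 2)) := Real.rpow_nonneg hRp.le _
    have hRT' : (R ^ (1 - ε₀)) ^ (1 + ε₀) ≤ R := by
      rw [← Real.rpow_mul hRp.le]
      calc R ^ ((1 - ε₀) * (1 + ε₀)) ≤ R ^ (1 : ℝ) := by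
            apply Real.rpow_le_rpow_of_exponent_le hR1
            nlinarith
        _ = R := Real.rpow_one R
    have hpp : 0 ≤ (R ^ (1 - ε₀)) ^ (-(δ / 2)) := Real.rpow_nonneg (by linarith) _
    obtain ⟨n, hn⟩ := pow_unbounded_of_one_lt (R ^ (1 - ε₀)) (by norm_num : (1 : ℝ) < 2)
    have b2 := key n (R ^ (1 - ε₀)) (1 / 4 + C₂ * R ^ (-δ)) R hR''1 hn hRT' (by linarith)
      (by linarith) (fun _ => by linarith)
    have hg1 : 1 ≤ C * (R ^ (1 - ε₀)) ^ (ε / 2) := by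
      have : 1 ≤ (R ^ (1 - ε₀)) ^ (ε / 2) := Real.one_le_rpow hR''1 (by linarith)
      exact one_le_mul_of_one_le_of_one_le hC1 this
    have b3 := (hR (1 / 4) R R (C * (R ^ (1 - ε₀)) ^ (ε / 2)) (by norm_num) (by norm_num) t2
      le_rfl hg1 b2).1
    refine bd_mono hRp.le b3 ?_
    have h4 : R ^ (ε₀ * ε / 32 + 2 * lb m * δ + (m + 2) * ε₀) * (R ^ (1 - ε₀)) ^ (ε / 2) ≤
        R ^ ε := by
      rw [← Real.rpow_mul hRp.le, ← Real.rpow_add hRp]
      apply Real.rpow_le_rpow_of_exponent_le hR1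
      have h7 : (1 - ε₀) * (ε / 2) = ε / 2 - ε₀ * ε / 2 := by ring
      have h8 : 2 * lb m * δ = 2 * (lb m * δ) := by ring
      rw [h7, h8]
      linarith
    calc C₂ * R ^ (ε₀ * ε / 32 + 2 * lb m * δ + (m + 2) * ε₀) *
          (C * (R ^ (1 - ε₀)) ^ (ε / 2))
        = C₂ * C * (R ^ (ε₀ * ε / 32 + 2 * lb m * δ + (m + 2) * ε₀) *
          (R ^ (1 - ε₀)) ^ (ε / 2)) := by ring
      _ ≤ C₂ * C * R ^ ε := by
          apply mul_le_mul_of_nonneg_left h4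
          have : 0 ≤ C₂ := by linarith
          positivity
      _ ≤ max (C₂ * C) (C₀ * R₂) * R ^ ε := by
          apply mul_le_mul_of_nonneg_right (le_max_left _ _) hRε.le

end Pool.Agent.H65.HD
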