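import Pool.Agent.H7.HD.Targets4

/-!
# MP_e37c09_lc, module ZC: one club for all sets in HOD
-/

open Ordinal Cardinal Order Set
open scoped ZFSet

universe u

namespace Pool.Agent.H65.HD.ZC

open _root_.HD

/-- an ordinal of cardinality at most `K` is the image of `K` -/
theorem exists_onto {K : Cardinal.{u}} {β : Ordinal.{u}} (h : β.card ≤ K) :
    ∃ g : Ordinal.{u} → Ordinal.{u}, ∀ b < β, ∃ ξ < K.ord, g ξ = b := by
  have h1 : #(Iio β) ≤ #(Iio K.ord) := by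
    rw [Cardinal.mk_Iio_ordinal, Cardinal.mk_Iio_ordinal, Cardinal.card_ord]
    exact Cardinal.lift_le.2 h
  obtain ⟨i⟩ := h1
  have h2 : ∀ x : Ordinal.{u}, ∃ b : Ordinal.{u}, ∀ b' : Iio β, (i b').1 = x → b'.1 = b := by
    intro x
    by_cases hx : ∃ b : Iio β, (i b).1 = x
    · obtain ⟨b, hb⟩ := hx
      exact ⟨b.1, fun b' hb' => congrArg Subtype.val (i.injective (Subtype.ext (hb'.trans hb.symm)))⟩
    · exact ⟨0, fun b' hb' => absurd ⟨b', hb'⟩ hx⟩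
  choose g hg using h2
  exact ⟨g, fun b hb => ⟨(i ⟨b, hb⟩).1, (i ⟨b, hb⟩).2, (hg _ ⟨b, hb⟩ rfl).symm⟩⟩

theorem clb_univ {ρ : Ordinal.{u}} (hρ : IsSuccLimit ρ) : Clb ρ univ :=
  ⟨fun a ha => ⟨a + 1, hρ.add_one_lt ha, lt_add_one a, mem_univ _⟩, fun _ _ _ _ => mem_univ _⟩

theorem X : T_ZC.{u} := by
  intro en hen D M K hGood hM hMD hK hDK I hI
  obtain ⟨hDr, hDs, hD0, hNSall⟩ := id hGood
  have hK0 : ℵ₀ < K := hD0.trans hDK
  have hKc : K.ord.cof = K := hK.cof_ord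
  set L : Cardinal.{u} := succ K with hL
  have hLr : L.IsRegular := Cardinal.isRegular_succ hK0.le
  have hKL : K < L := lt_succ K
  have hDL : D < L := hDK.trans hKL
  have hLc : L.ord.cof = L := hLr.cof_ord
  have hnsx : NSX D.ord M.ord L.ord :=
    All.ha _ _ _ (hNSall M hM hMD L.ord (by rw [hLc]; exact hDL.le))
  have hds : DS (univ : Set Ordinal.{u}) := (DO.cst True).congr fun _ => by simp
  obtain ⟨d, -, hd⟩ := All.hb en hen D M L hDr hDs hD0 hM hMD hLr hDL hnsx univ hds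
    (All.vc M L.ord hM (by rw [hLc]; exact hMD.trans hDL))
  obtain ⟨β, hβ, f, y, hf, hfy, hf2⟩ := All.kc en hen M.ord L d hLr (hK0.trans hKL) hd K.ord
    (Cardinal.ord_lt_ord.2 hKL)
  have hβK : β.card ≤ K := Order.lt_succ_iff.1 (Cardinal.lt_ord.1 hβ)
  obtain ⟨g, hg⟩ := exists_onto hβK
  -- an enumeration of the sets in HOD
  have hG0 : ∀ ξ : Ordinal.{u}, ∃ x : ZFSet.{u}, (∃ z, ZFSet.pair (g ξ).toZFSet z ∈ f) →
      ZFSet.pair (g ξ).toZFSet x ∈ f := by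
    intro ξ
    by_cases h : ∃ z, ZFSet.pair (g ξ).toZFSet z ∈ f
    · obtain ⟨z, hz⟩ := h
      exact ⟨z, fun _ => hz⟩
    · exact ⟨∅, fun h' => absurd h' h⟩
  choose G hG using hG0
  have hGs : ∀ x, HOD x → x ⊆ K.ord.toZFSet → ∃ ξ < K.ord, G ξ = x := by
    intro x hx hxs
    obtain ⟨b, hb, hbx⟩ := hf2 x hx hxs
    obtain ⟨ξ, hξ, rfl⟩ := hg b hb
    refine ⟨ξ, hξ, ?_⟩
    obtain ⟨w, hw, hu⟩ := hfy.2 (g ξ).toZFSet (toZFSet_mem_toZFSet_iff.2 hb)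
    rw [hu _ (hG ξ ⟨x, hbx⟩), hu _ hbx]
  obtain ⟨τ, hτ, e, he⟩ := hI
  have hlim : IsSuccLimit K.ord := isSuccLimit_ord hK.aleph0_le
  -- the clubs
  have hC0 : ∀ ξ i : Ordinal.{u}, ∃ C : Set Ordinal.{u}, Clb K.ord C ∧
      (G ξ ∈ uz en M.ord K.ord (e i) → ∀ b < K.ord, b ∈ C → b ∈ E en (e i) → Cf M.ord b →
        b.toZFSet ∈ G ξ) := by
    intro ξ i
    by_cases h : G ξ ∈ uz en M.ord K.ord (e i)
    · have h1 := (ZFSet.mem_sep.1 h).2.2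
      unfold Pos at h1
      push Not at h1
      obtain ⟨C, hC, h1⟩ := h1
      refine ⟨C, hC, fun _ b hb hbC hbE hcf => ?_⟩
      by_contra hno
      exact h1 b hb hbC ⟨hbE, hno⟩ hcf
    · exact ⟨univ, clb_univ hlim, fun h' => absurd h' h⟩
  choose C hC hC2 using hC0
  have hτK : τ.card < K.ord.cof := by
    rw [hKc]
    exact (Cardinal.lt_ord.1 hτ).trans hDK
  have hC' : ∀ ξ, Clb K.ord {b | ∀ i < τ, b ∈ C ξ i} := fun ξ =>
    Pool.Agent.H76.HD.WE.club_inter (by rw [hKc]; exact hK0) hτK (C ξ) (fun i _ => hC ξ i)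
  refine ⟨_, Pool.Agent.H33.HD.VD.diag hK hK0 _ (fun ξ _ => hC' ξ), ?_⟩
  intro c hc x hx
  obtain ⟨i, hi, rfl⟩ := he c hc
  have hx1 := ZFSet.mem_sep.1 hx
  have hxs : x ⊆ K.ord.toZFSet := ZFSet.mem_powerset.1 hx1.1
  obtain ⟨ξ, hξ, rfl⟩ := hGs x (HOD.of_sub hx1.2.1 hxs) hxs
  refine ⟨ξ, hξ, fun b hb hξb hbK hcf hbE => ?_⟩
  exact hC2 ξ i hx b hbK (hb.2 ξ hξb i hi) hbE hcf

end Pool.Agent.H65.HD.ZC
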